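import Pool.Agent.Helper12.GM.Lib

/-!
# ANC: Ancona inequality for the unkilled walk, from the killed version KA
-/

open scoped ENNReal Topology
open Filter

namespace Pool.Agent.Helper12.GM

theorem ANC_gp_self {Γ : Type} [Group Γ] (Q : Geo Γ) (x z : Γ) : Q.gp x x z = Q.d z x := by
  unfold Geo.gp
  rw [Q.d_self]
  ring

theorem st_ANC (hKA : ST_KA) (hCONE : ST_CONE) (hHLOW : ST_HLOW) : ST_ANC := by
  intro Γ _ Q μ K hW C₁
  obtain ⟨c, Cl, hc, hCl, hlow⟩ := hHLOW Q μ K hW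
  obtain ⟨⟨l₁, hst⟩, hgp, -⟩ := hCONE Q
  obtain ⟨K', hK'⟩ := hKA Q μ K hW (2 * (C₁ / 2) + 2 * Q.C) c Cl l₁ hc
  refine ⟨K', fun g h hgh => ?_⟩
  have e1 : Q.d g 1 = Q.L g := by
    rw [Q.d_comm, Q.d_one]
  have e2 : Q.d g (g * h) = Q.L h := by
    have := Q.d_left g 1 h
    rw [mul_one, Q.d_one] at this
    exact this
  have e3 : Q.d 1 (g * h) = Q.L (g * h) := Q.d_one _
  have hg : Q.gp 1 (g * h) g ≤ C₁ / 2 := by
    unfold Geo.gp
    rw [e1, e2, e3]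
    linarith
  have key := hK' Set.univ g {u | Q.d g u / 2 ≤ Q.gp u 1 g} {v | Q.d g v / 2 ≤ Q.gp v (g * h) g}
    (fun u hu v hv => hgp 1 (g * h) g u v (C₁ / 2) hg hu hv)
    (fun l hl w hw h1 _ p h3 h4 u _ h5 => (hst l hl 1 g w p u hw h1 h3 h4 h5).1)
    (fun l hl w hw h1 _ p h3 h4 u _ h5 => (hst l hl (g * h) g w p u hw h1 h3 h4 h5).1)
    (fun u _ v _ _ => ⟨by rw [Q.d_comm g u]; exact hlow u g, hlow g v⟩)
    1 (by
      show Q.d g 1 / 2 ≤ Q.gp 1 1 g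
      rw [ANC_gp_self]
      linarith [Q.d_nonneg g 1]) (g * h) (by
      show Q.d g (g * h) / 2 ≤ Q.gp (g * h) (g * h) g
      rw [ANC_gp_self]
      linarith [Q.d_nonneg g (g * h)])
  have e4 : Gr μ Set.univ g (g * h) = Gr μ Set.univ 1 h := by
    have := Gr_left_univ μ g 1 h
    rwa [mul_one] at this
  rwa [e4] at key

end Pool.Agent.Helper12.GM
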