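import Pool.Agent.Helper12.GM.Lib

/-!
# GFM: the hitting probabilities satisfy the axioms GF
-/

open scoped ENNReal Topology
open Filter

namespace Pool.Agent.Helper12.GM

theorem GFM_div {Γ : Type} [Group Γ] (μ : PMF Γ) (g : Γ) :
    Fh μ g = (Gr μ Set.univ 1 g).toReal / (Gr μ Set.univ 1 1).toReal := by
  unfold Fh
  rw [ENNReal.toReal_div]

theorem st_GFM (hANC : ST_ANC) (hZ : ST_ZFIN) (hHLOW : ST_HLOW) : ST_GFM := by
  intro Γ _ Q μ K hW
  have htop : ∀ x y, Gr μ Set.univ x y ≠ ∞ := fun x y => hW.Gr_ne_top Set.univ x y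
  have h0 : 1 ≤ (Gr μ Set.univ (1 : Γ) 1).toReal := by
    have h := one_le_Gr μ Set.univ (1 : Γ)
    have h2 := ENNReal.toReal_mono (htop 1 1) h
    simpa using h2
  have hpos0 : 0 < (Gr μ Set.univ (1 : Γ) 1).toReal := by linarith
  have hpos : ∀ g, 0 < (Gr μ Set.univ (1 : Γ) g).toReal := by
    intro g
    obtain ⟨c, C₁, hc, -, hlow⟩ := hHLOW Q μ K hW
    have h := hlow 1 g
    have h2 : 0 < Gr μ Set.univ 1 g :=
      lt_of_lt_of_le (ENNReal.ofReal_pos.mpr (mul_pos hc (Real.exp_pos _))) h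
    exact ENNReal.toReal_pos h2.ne' (htop 1 g)
  have hleft : ∀ g h : Γ, Gr μ Set.univ g (g * h) = Gr μ Set.univ 1 h := by
    intro g h
    have := Gr_left_univ μ g 1 h
    rwa [mul_one] at this
  refine ⟨?_, ?_, ?_, ?_, ?_, ?_⟩
  · intro g
    rw [GFM_div]
    exact div_pos (hpos g) hpos0
  · intro g
    rw [GFM_div, div_le_one hpos0]
    exact ENNReal.toReal_mono (htop 1 1) (Gr_le_G0 μ Set.univ 1 g)
  · rw [GFM_div, div_self hpos0.ne']
  · intro g h
    rw [GFM_div, GFM_div, GFM_div]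
    have h1 := Gr_chain μ Set.univ 1 g (g * h)
    rw [hleft] at h1
    have h2 := ENNReal.toReal_mono (ENNReal.mul_ne_top (htop 1 1) (htop 1 (g * h))) h1
    rw [ENNReal.toReal_mul, ENNReal.toReal_mul] at h2
    rw [div_mul_div_comm, div_le_div_iff₀ (mul_pos hpos0 hpos0) hpos0]
    nlinarith
  · intro C₁
    obtain ⟨K', hK'⟩ := hANC Q μ K hW C₁
    refine ⟨(ENNReal.ofReal K').toReal * (Gr μ Set.univ (1 : Γ) 1).toReal, fun g h hgh => ?_⟩
    have h1 := hK' g h hgh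
    have h2 := ENNReal.toReal_mono (ENNReal.mul_ne_top ENNReal.ofReal_ne_top
      (ENNReal.mul_ne_top (htop 1 g) (htop 1 h))) h1
    rw [ENNReal.toReal_mul, ENNReal.toReal_mul] at h2
    rw [GFM_div, GFM_div, GFM_div, div_le_iff₀ hpos0]
    refine h2.trans (le_of_eq ?_)
    field_simp
  · intro s hs
    have h1 := ENNReal.summable_toReal (hZ Q μ K hW s hs)
    have h2 := h1.mul_left ((Gr μ Set.univ (1 : Γ) 1).toReal)⁻¹
    refine h2.congr fun g => ?_
    rw [ENNReal.toReal_mul, ENNReal.toReal_ofReal (Real.exp_pos _).le, GFM_div]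
    ring

end Pool.Agent.Helper12.GM
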