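import Pool.Agent.Helper12.GM.Lib

/-!
# LAZY: the lazy version of a walk has twice its Green function
-/

open scoped ENNReal Topology
open Filter

namespace Pool.Agent.Helper12.GM

theorem LAZY_choose_real (k : ℕ) :
    HasSum (fun n : ℕ => ((n + k).choose k : ℝ) * (1 / 2) ^ (n + k)) 2 := by
  have h := hasSum_choose_mul_geometric_of_norm_lt_one k (r := (1 / 2 : ℝ)) (by norm_num)
  have h2 := h.mul_right ((1 / 2 : ℝ) ^ k)
  have e : 1 / (1 - 1 / 2 : ℝ) ^ (k + 1) * (1 / 2) ^ k = 2 := by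
    rw [show (1 - 1 / 2 : ℝ) = 1 / 2 by norm_num, pow_succ]
    field_simp
  rw [e] at h2
  refine h2.congr_fun ?_ |> fun h => h
  intro n
  simp only [pow_add, mul_assoc]

theorem LAZY_choose (k : ℕ) :
    ∑' n : ℕ, ((n.choose k : ℕ) : ℝ≥0∞) * (2⁻¹ : ℝ≥0∞) ^ n = 2 := by
  have h1 : ∑' n : ℕ, ((n.choose k : ℕ) : ℝ≥0∞) * (2⁻¹ : ℝ≥0∞) ^ n =
      ∑' n : ℕ, (((n + k).choose k : ℕ) : ℝ≥0∞) * (2⁻¹ : ℝ≥0∞) ^ (n + k) := by
    rw [← Summable.sum_add_tsum_nat_add'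
      (f := fun n : ℕ => ((n.choose k : ℕ) : ℝ≥0∞) * (2⁻¹ : ℝ≥0∞) ^ n) (k := k) ENNReal.summable]
    rw [Finset.sum_eq_zero, zero_add]
    intro i hi
    rw [Nat.choose_eq_zero_of_lt (Finset.mem_range.mp hi), Nat.cast_zero, zero_mul]
  rw [h1]
  have h2 : ∀ n : ℕ, (((n + k).choose k : ℕ) : ℝ≥0∞) * (2⁻¹ : ℝ≥0∞) ^ (n + k) =
      ENNReal.ofReal (((n + k).choose k : ℝ) * (1 / 2) ^ (n + k)) := by
    intro n
    rw [ENNReal.ofReal_mul (by positivity), ENNReal.ofReal_natCast,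
      ENNReal.ofReal_pow (by norm_num)]
    congr 2
    rw [one_div, ENNReal.ofReal_inv_of_pos (by norm_num)]
    simp
  rw [tsum_congr h2, ← ENNReal.ofReal_tsum_of_nonneg (fun n => by positivity)
    (LAZY_choose_real k).summable, (LAZY_choose_real k).tsum_eq]
  simp

open Classical in
/-- the lazy law -/
noncomputable def LAZY_mu {Γ : Type} [Group Γ] (μ : PMF Γ) : PMF Γ :=
  ⟨fun s => 2⁻¹ * (if s = 1 then 1 else 0) + 2⁻¹ * μ s, by
    have h1 : HasSum (fun s : Γ => (2⁻¹ : ℝ≥0∞) * (if s = 1 then 1 else 0)) 2⁻¹ := by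
      have := hasSum_ite_eq (1 : Γ) (2⁻¹ : ℝ≥0∞)
      refine this.congr_fun ?_ |> fun h => h
      intro s
      by_cases hs : s = 1 <;> simp [hs]
    have h2 : HasSum (fun s : Γ => (2⁻¹ : ℝ≥0∞) * μ s) 2⁻¹ := by
      have h3 : HasSum (fun s : Γ => (2⁻¹ : ℝ≥0∞) * μ s) (∑' s, (2⁻¹ : ℝ≥0∞) * μ s) :=
        ENNReal.summable.hasSum
      rwa [ENNReal.tsum_mul_left, μ.tsum_coe, mul_one] at h3
    have h3 := h1.add h2
    rwa [ENNReal.inv_two_add_inv_two] at h3⟩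

theorem LAZY_mu_apply {Γ : Type} [Group Γ] (μ : PMF Γ) (s : Γ) [Decidable (s = 1)] :
    LAZY_mu μ s = 2⁻¹ * (if s = 1 then 1 else 0) + 2⁻¹ * μ s := by
  have h : LAZY_mu μ s = 2⁻¹ * (@ite _ (s = 1) (Classical.propDecidable _) 1 0) + 2⁻¹ * μ s := rfl
  rw [h]
  congr

theorem LAZY_pw {Γ : Type} [Group Γ] (μ : PMF Γ) (y : Γ) (n : ℕ) (x : Γ) :
    pw (LAZY_mu μ) Set.univ n x y =
      ∑' k : ℕ, ((n.choose k : ℕ) : ℝ≥0∞) * (2⁻¹ : ℝ≥0∞) ^ n * pw μ Set.univ k x y := by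
  classical
  induction n generalizing x with
  | zero =>
    rw [tsum_eq_single 0]
    · rw [pw_zero, pw_zero]; simp
    · intro k hk
      rw [Nat.choose_eq_zero_of_lt (Nat.pos_of_ne_zero hk)]
      simp
  | succ n ih =>
    rw [pw_succ_mem _ n y (Set.mem_univ x)]
    simp_rw [LAZY_mu_apply, add_mul]
    rw [ENNReal.tsum_add]
    have e1 : ∑' s : Γ, (2⁻¹ : ℝ≥0∞) * (if s = 1 then 1 else 0) *
        pw (LAZY_mu μ) Set.univ n (x * s) y = 2⁻¹ * pw (LAZY_mu μ) Set.univ n x y := by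
      rw [tsum_eq_single 1]
      · simp
      · intro s hs
        simp [hs]
    rw [e1, ih]
    have e2 : ∑' s : Γ, (2⁻¹ : ℝ≥0∞) * μ s * pw (LAZY_mu μ) Set.univ n (x * s) y =
        ∑' k : ℕ, ((n.choose k : ℕ) : ℝ≥0∞) * (2⁻¹ : ℝ≥0∞) ^ (n + 1) *
          pw μ Set.univ (k + 1) x y := by
      simp_rw [ih, ← ENNReal.tsum_mul_left]
      rw [ENNReal.tsum_comm]
      refine tsum_congr fun k => ?_
      rw [pw_succ_mem μ k y (Set.mem_univ x), ← ENNReal.tsum_mul_left]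
      refine tsum_congr fun s => ?_
      rw [pow_succ]
      ring
    rw [e2, ← ENNReal.tsum_mul_left]
    rw [tsum_eq_zero_add' (f := fun k : ℕ => (2⁻¹ : ℝ≥0∞) *
      (((n.choose k : ℕ) : ℝ≥0∞) * (2⁻¹ : ℝ≥0∞) ^ n * pw μ Set.univ k x y)) ENNReal.summable,
      tsum_eq_zero_add' (f := fun k : ℕ => (((n + 1).choose k : ℕ) : ℝ≥0∞) *
        (2⁻¹ : ℝ≥0∞) ^ (n + 1) * pw μ Set.univ k x y) ENNReal.summable, add_assoc,
      ← ENNReal.tsum_add]
    congr 1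
    · simp only [Nat.choose_zero_right, Nat.cast_one, one_mul, pow_succ]
      ring
    · refine tsum_congr fun k => ?_
      rw [Nat.choose_succ_succ, Nat.cast_add, pow_succ]
      ring

theorem LAZY_Gr {Γ : Type} [Group Γ] (μ : PMF Γ) (x y : Γ) :
    Gr (LAZY_mu μ) Set.univ x y = 2 * Gr μ Set.univ x y := by
  unfold Gr
  simp_rw [LAZY_pw]
  rw [ENNReal.tsum_comm, ← ENNReal.tsum_mul_left]
  refine tsum_congr fun k => ?_
  rw [ENNReal.tsum_mul_right, LAZY_choose]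

theorem st_LAZY : ST_LAZY := by
  classical
  intro Γ _ μ hμ
  refine ⟨LAZY_mu μ, ⟨?_, ?_⟩, ?_, LAZY_Gr μ⟩
  · refine (hμ.fin.insert 1).subset ?_
    intro s hs
    rw [PMF.mem_support_iff] at hs
    by_cases h1 : s = 1
    · exact Or.inl h1
    · refine Or.inr ?_
      rw [PMF.mem_support_iff]
      intro h2
      apply hs
      rw [LAZY_mu_apply]
      simp [h1, h2]
  · obtain ⟨S, h1, h2, h3⟩ := hμ.gen
    refine ⟨S, fun s hs => ?_, h2, h3⟩
    have := h1 hs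
    rw [PMF.mem_support_iff] at this ⊢
    intro h4
    rw [LAZY_mu_apply] at h4
    rw [add_eq_zero] at h4
    have h5 := h4.2
    rw [mul_eq_zero] at h5
    rcases h5 with h5 | h5
    · simp at h5
    · exact this h5
  · rw [LAZY_mu_apply]
    simp

end Pool.Agent.Helper12.GM
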